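import Mathlib
import Pool.Agent.H32.Rdv

set_option autoImplicit false

namespace Pool.Agent.Results.MP_925b40_pr.Undirected

open MeasureTheory
open scoped ENNReal NNReal

noncomputable section

/-- First meeting time of two paths on the circle (infinite if they never meet). -/
def meet (p q : ℝ≥0 → UnitAddCircle) : ℝ≥0∞ := ⨅ (τ : ℝ≥0) (_ : p τ = q τ), (τ : ℝ≥0∞)

/-- Expected meeting time on the undirected circle: uniform rotation and a fair reflection. -/
def undirTime (f g : ℝ≥0 → UnitAddCircle) : ℝ≥0∞ :=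
  ((∫⁻ a : UnitAddCircle, meet (fun τ => a + f τ) g) +
    ∫⁻ a : UnitAddCircle, meet (fun τ => a + f τ) (fun τ => - g τ)) / 2

/-- The coin-half-tour path: on `[k/2, (k+1)/2]` unit speed in the direction given by coin `k`. -/
def cohato (ω : ℕ → Bool) (τ : ℝ≥0) : UnitAddCircle :=
  (((∑ j ∈ Finset.range ⌊2 * (τ : ℝ)⌋₊, (if ω j then (1 / 2 : ℝ) else -1 / 2))
    + (if ω ⌊2 * (τ : ℝ)⌋₊ then (1 : ℝ) else -1) * ((τ : ℝ) - (⌊2 * (τ : ℝ)⌋₊ : ℝ) / 2) : ℝ) :
      UnitAddCircle)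

/-- Independent fair coins. -/
def fair : Measure (ℕ → Bool) :=
  Measure.infinitePi (fun _ : ℕ => (PMF.uniformOfFintype Bool).toMeasure)

section
open Pool.Agent.H32.Rdv

def st : Fin 6 → ℕ → Bool := fun i j =>
  (![[true, true, true, true, true, true], [true, true, true, false, false, false],
    [true, true, false, true, false, false], [true, true, false, false, true, true],
    [true, false, true, true, false, true], [true, false, false, false, false, true]] i :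
      List Bool).getD j false

def wt : Fin 6 → ℕ := ![24, 15, 11, 21, 13, 16]

def cc (i j : Fin 6) : ℕ := (cA 6 (st i) (st j) + cB 6 (st i) (st j)) +
  (cA 6 (st i) (fun k => !st j k) + cB 6 (st i) (fun k => !st j k))

lemma tot : ∑ i, ∑ j, wt i * wt j * cc i j = 117856 := by
  decide +kernel

lemma K_not (ω1 ω2 : ℕ → Bool) : K ω1 (fun j => !ω2 j) = K (fun j => !ω1 j) ω2 := by
  unfold K
  refine iInf_congr fun t => ?_
  have : (ω1 t ≠ !ω2 t) ↔ ((!ω1 t) ≠ ω2 t) := by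
    cases ω1 t <;> cases ω2 t <;> simp
  simp only [this]

lemma lint_two (ω1 : ℕ → Bool) (A B A' B' : ℝ≥0∞) :
    ∫⁻ ω2, ((A + B * K ω1 ω2) / 8 + (A' + B' * K ω1 (fun j => !ω2 j)) / 8) / 2 ∂coins =
      ((A + B) + (A' + B')) / 16 := by
  have hm : ∀ (ω : ℕ → Bool) (A B : ℝ≥0∞), Measurable fun ω2 => (A + B * K ω ω2) / 8 :=
    fun ω A B => (measurable_const.add ((measurable_K ω).const_mul B)).div_const 8
  have hm2 : Measurable fun ω2 =>
      (A + B * K ω1 ω2) / 8 + (A' + B' * K (fun j => !ω1 j) ω2) / 8 := (hm _ _ _).add (hm _ _ _)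
  simp only [K_not, div_eq_mul_inv _ (2 : ℝ≥0∞)]
  rw [lintegral_mul_const _ hm2, lintegral_add_left (hm _ _ _), lint_affine, lint_affine,
    ENNReal.div_add_div_same, div_eq_mul_inv, div_eq_mul_inv, mul_assoc,
    ← ENNReal.mul_inv (by norm_num) (by norm_num)]
  norm_num

lemma neg_Φ (n : ℕ) (t ω : ℕ → Bool) (τ : ℝ≥0) :
    - Φ n t ω τ = P (ext n (fun k => !t k) (fun k => !ω k)) τ := by
  rw [Φ, ← P_not]
  congr 2
  funext j
  unfold ext
  split_ifs <;> rfl

lemma pair (i j : Fin 6) (ω1 : ℕ → Bool) :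
    ∫⁻ ω2, undirTime (Φ 6 (st i) ω1) (Φ 6 (st j) ω2) ∂coins ≤ (cc i j : ℝ≥0∞) / 16 := by
  refine le_trans (lintegral_mono fun ω2 => ?_) (le_of_eq ((lint_two ω1 (cA 6 (st i) (st j))
    (cB 6 (st i) (st j)) (cA 6 (st i) (fun k => !st j k)) (cB 6 (st i) (fun k => !st j k))).trans ?_))
  · unfold undirTime
    gcongr
    · exact main_le 6 _ _ ω1 ω2
    · simp only [meet, neg_Φ]
      exact main_le 6 _ _ ω1 _
  · simp [cc]

lemma neg_cohato (ω : ℕ → Bool) (τ : ℝ≥0) :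
    - cohato ω τ = ((co (fun j => !ω j) τ : ℝ) : UnitAddCircle) := by
  rw [cohato, ← AddCircle.coe_neg]
  congr 1
  rw [co, neg_add, ← Finset.sum_neg_distrib, ← neg_mul]
  congr 1
  · refine Finset.sum_congr rfl fun j _ => ?_
    rcases h : ω j with _ | _ <;> simp <;> norm_num
  · congr 1
    rcases h : ω ⌊2 * (τ : ℝ)⌋₊ with _ | _ <;> simp

lemma low (ω1 : ℕ → Bool) :
    (12 : ℝ≥0∞) / 16 ≤ ∫⁻ ω2, undirTime (cohato ω1) (cohato ω2) ∂coins := by
  refine le_trans (le_of_eq ?_) (lintegral_mono (f := fun ω2 =>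
    ((2 + 4 * K ω1 ω2) / 8 + (2 + 4 * K ω1 (fun j => !ω2 j)) / 8) / 2) fun ω2 => ?_)
  · rw [lint_two]
    norm_num
  · refine ENNReal.div_le_div_right (add_le_add ?_ ?_) 2
    · exact co_K ω1 ω2
    · simp only [meet, neg_cohato]
      exact co_K ω1 _

end

end

theorem result :
    ∃ μ : @Measure C(ℝ≥0, UnitAddCircle) (borel C(ℝ≥0, UnitAddCircle)),
      IsProbabilityMeasure μ ∧
      (∀ᵐ (f : C(ℝ≥0, UnitAddCircle)) ∂μ, LipschitzWith 1 (⇑f) ∧ f 0 = 0) ∧
      ∫⁻ (f : C(ℝ≥0, UnitAddCircle)), (∫⁻ (g : C(ℝ≥0, UnitAddCircle)), undirTime f g ∂μ) ∂μ <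
        ∫⁻ ω₁, (∫⁻ ω₂, undirTime (cohato ω₁) (cohato ω₂) ∂fair) ∂fair := by
  refine ⟨H32.Rdv.mix 6 st wt, H32.Rdv.mix_prob 6 st wt (by decide), H32.Rdv.mix_ae 6 st wt, ?_⟩
  have h2 := H32.Rdv.lint2_mix_le 6 st wt (fun f g => undirTime f g) cc 16 pair
  rw [tot] at h2
  have h3 := lintegral_mono (μ := H32.Rdv.coins) low
  rw [lintegral_const, measure_univ, mul_one] at h3
  refine lt_of_le_of_lt h2 (lt_of_lt_of_le ?_ h3)
  rw [ENNReal.div_lt_iff (by norm_num) (by norm_num), mul_comm (10000 : ℝ≥0∞) 16, ← mul_assoc,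
    ENNReal.div_mul_cancel (by norm_num) (by norm_num)]
  norm_num

end Pool.Agent.Results.MP_925b40_pr.Undirected
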